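import Pool.Agent.MWLQ.StmtsB

/-!
# Row TWC of block MWLQ (MP_23468a_al): multiplicities in the words
-/

set_option autoImplicit false

namespace Pool.Agent.MWLQ.H89T

open Pool.Agent.Helper14_MV
open Pool.Agent.Helper2_MV (RR)
open Pool.Agent.MWK (pre)
open Pool.Agent.MWF (gaml)
open Pool.Agent.MWGN (nn Tau gh)
open Pool.Agent.MWGQ (pw Z Gn E0 A0 P0)
open Pool.Agent.MWLE (pin sep con tl tll Sg t1 Fc Fb Fy Fx Fu Fz rz sf k0)

theorem cp_succ (n s k : ℕ) :
    cp n s (k + 1) = cp n s k ++ (pin (s + k) :: List.replicate (n + 1) (con (s + k))) := by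
  simp [cp, List.range_succ]

theorem mem_cp {n s k c : ℕ} : c ∈ cp n s k ↔ ∃ i < k, c = pin (s + i) ∨ c = con (s + i) := by
  unfold cp
  rw [List.mem_flatMap]
  constructor
  · rintro ⟨i, hi, h⟩
    rw [List.mem_range] at hi
    rw [List.mem_cons, List.mem_replicate] at h
    rcases h with h | h
    · exact ⟨i, hi, Or.inl h⟩
    · exact ⟨i, hi, Or.inr h.2⟩
  · rintro ⟨i, hi, h⟩
    refine ⟨i, List.mem_range.2 hi, ?_⟩
    rw [List.mem_cons, List.mem_replicate]
    rcases h with h | h
    · exact Or.inl h
    · exact Or.inr ⟨by omega, h⟩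

theorem cnt_cp {n s i : ℕ} (hn : 1 ≤ n) : ∀ {k : ℕ}, i < k → 2 ≤ (cp n s k).count (con (s + i))
  | 0, h => by omega
  | k + 1, h => by
    rw [cp_succ, List.count_append]
    rcases Nat.lt_or_ge i k with h1 | h1
    · have := cnt_cp (s := s) hn h1
      omega
    · have e : i = k := by omega
      subst e
      have : 2 ≤ ((pin (s + i) :: List.replicate (n + 1) (con (s + i))) : List ℕ).count
          (con (s + i)) := by
        have h2 := List.count_le_count_cons (a := con (s + i)) (b := pin (s + i))
          (l := List.replicate (n + 1) (con (s + i)))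
        rw [List.count_replicate_self] at h2
        omega
      omega

theorem mem_rep {n c e : ℕ} : c ∈ List.replicate (n + 1) e ↔ c = e := by
  rw [List.mem_replicate]
  constructor
  · exact fun h => h.2
  · exact fun h => ⟨by omega, h⟩

theorem mem_wb {n m c : ℕ} {d g : Bool} : c ∈ wb n m d g ↔ c = 0 ∨ c = 1 ∨ c = con 0 ∨ c = pin 0 ∨
    c ∈ cp n 1 m ∨ c = con (m + 1) ∨ c = pin (m + 1) ∨ c ∈ cp n (m + 2) m ∨
      c = pin (2 * m + 2) := by
  have hg : c ∈ (if g then List.replicate n 1 else []) → c = 1 := by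
    cases g
    · intro h; simp at h
    · intro h
      simp only [if_true] at h
      exact (List.mem_replicate.1 h).2
  have hd : c ∈ (if d then List.replicate (n + 1) 0 else [0]) ↔ c = 0 := by
    cases d
    · simp
    · simp only [if_true]; exact mem_rep
  unfold wb N0 Nx
  simp only [List.mem_append, List.mem_cons, List.not_mem_nil, or_false, mem_rep, hd]
  constructor
  · intro h
    rcases h with (h | h | h | h) | h | (h | h | h | h | h | h) | h
    · tauto
    · tauto
    · tauto
    · tauto
    · tauto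
    · tauto
    · have := hg h; tauto
    · tauto
    · tauto
    · tauto
    · tauto
    · tauto
  · tauto

theorem cls {n m c : ℕ} {d g : Bool} (h : c ∈ wb n m d g) : c = 0 ∨ c = 1 ∨
    (∃ k ≤ 2 * m + 1, c = con k) ∨ ∃ k ≤ 2 * m + 2, c = pin k := by
  rcases mem_wb.1 h with h | h | h | h | h | h | h | h | h
  · exact Or.inl h
  · exact Or.inr (Or.inl h)
  · exact Or.inr (Or.inr (Or.inl ⟨0, by omega, h⟩))
  · exact Or.inr (Or.inr (Or.inr ⟨0, by omega, h⟩))
  · obtain ⟨i, hi, h1 | h1⟩ := mem_cp.1 h
    · exact Or.inr (Or.inr (Or.inr ⟨1 + i, by omega, h1⟩))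
    · exact Or.inr (Or.inr (Or.inl ⟨1 + i, by omega, h1⟩))
  · exact Or.inr (Or.inr (Or.inl ⟨m + 1, by omega, h⟩))
  · exact Or.inr (Or.inr (Or.inr ⟨m + 1, by omega, h⟩))
  · obtain ⟨i, hi, h1 | h1⟩ := mem_cp.1 h
    · exact Or.inr (Or.inr (Or.inr ⟨m + 2 + i, by omega, h1⟩))
    · exact Or.inr (Or.inr (Or.inl ⟨m + 2 + i, by omega, h1⟩))
  · exact Or.inr (Or.inr (Or.inr ⟨2 * m + 2, le_rfl, h⟩))

theorem cnt2 {n m c : ℕ} (hn : 1 ≤ n) {d g : Bool} (h : c ∈ wb n m d g) (hp : ∀ k, c ≠ pin k) :
    2 ≤ (wb n m d g).count c := by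
  have e : (wb n m d g).count c = (N0 n m).count c +
      (((if d then List.replicate (n + 1) 0 else [0]) : List ℕ).count c +
      ((Nx n m g).count c + ([0] : List ℕ).count c)) := by
    unfold wb
    simp only [List.count_append]
  have e1 : (N0 n m).count c = ([1] : List ℕ).count c + ((List.replicate (n + 1) (con 0)).count c +
      (([pin 0] : List ℕ).count c + (cp n 1 m).count c)) := by
    have : N0 n m = [1] ++ (List.replicate (n + 1) (con 0) ++ ([pin 0] ++ cp n 1 m)) := rfl
    rw [this]
    simp only [List.count_append]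
  have e2 : (Nx n m g).count c = (List.replicate (n + 1) (con (m + 1))).count c +
      (((if g then List.replicate n 1 else []) : List ℕ).count c +
        (([pin (m + 1), 1] : List ℕ).count c +
        ((cp n (m + 2) m).count c + ([pin (2 * m + 2)] : List ℕ).count c))) := by
    have : Nx n m g = List.replicate (n + 1) (con (m + 1)) ++
      ((if g then List.replicate n 1 else []) ++
      ([pin (m + 1), 1] ++ (cp n (m + 2) m ++ [pin (2 * m + 2)]))) := rfl
    rw [this]
    simp only [List.count_append]
  rw [e, e1, e2]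
  rcases mem_wb.1 h with h | h | h | h | h | h | h | h | h
  · subst h
    have h1 : 1 ≤ ((if d then List.replicate (n + 1) 0 else [0]) : List ℕ).count 0 := by
      cases d
      · simp
      · simp only [if_true]
        rw [List.count_replicate_self]; omega
    have h2 : ([0] : List ℕ).count 0 = 1 := by simp
    omega
  · subst h
    have h1 : 1 ≤ ([1] : List ℕ).count 1 := by simp
    have h2 : 1 ≤ ([pin (m + 1), 1] : List ℕ).count 1 :=
      List.count_pos_iff.2 (by simp)
    omega
  · subst h
    have h1 : (List.replicate (n + 1) (con 0)).count (con 0) = n + 1 := List.count_replicate_self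
    omega
  · exact absurd h (hp 0)
  · obtain ⟨i, hi, h1 | h1⟩ := mem_cp.1 h
    · exact absurd h1 (hp _)
    · subst h1
      have := cnt_cp (s := 1) hn hi
      omega
  · subst h
    have h1 : (List.replicate (n + 1) (con (m + 1))).count (con (m + 1)) = n + 1 :=
      List.count_replicate_self
    omega
  · exact absurd h (hp _)
  · obtain ⟨i, hi, h1 | h1⟩ := mem_cp.1 h
    · exact absurd h1 (hp _)
    · subst h1
      have := cnt_cp (s := m + 2) hn hi
      omega
  · exact absurd h (hp _)

theorem pin_wb {n m k : ℕ} (d g : Bool) (hk : k ≤ 2 * m + 2) : pin k ∈ wb n m d g := by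
  rw [mem_wb]
  by_cases h0 : k = 0
  · subst h0; tauto
  by_cases h1 : k ≤ m
  · have : pin k ∈ cp n 1 m :=
      mem_cp.2 ⟨k - 1, by omega, Or.inl (by rw [show 1 + (k - 1) = k by omega])⟩
    tauto
  by_cases h2 : k = m + 1
  · subst h2; tauto
  by_cases h3 : k ≤ 2 * m + 1
  · have : pin k ∈ cp n (m + 2) m :=
      mem_cp.2 ⟨k - (m + 2), by omega, Or.inl (by rw [show m + 2 + (k - (m + 2)) = k by omega])⟩
    tauto
  · have h4 : k = 2 * m + 2 := by omega
    subst h4; tauto

theorem twc : TwcStmt := by
  intro n hn σ τ m hS d g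
  refine ⟨?_, fun c hc hp => cnt2 hn hc hp, fun k hk => pin_wb d g hk, fun c hc => cls hc⟩
  intro c hc
  have e : (wd n σ m d g).count c = (wb n m d g).count c + (tl σ).count c := by
    unfold wd
    rw [List.count_append]
  rw [e]
  by_cases hp : ∀ k, c ≠ pin k
  · have := cnt2 hn hc hp
    omega
  · push Not at hp
    obtain ⟨k, hk⟩ := hp
    have h1 : 1 ≤ (wb n m d g).count c := List.count_pos_iff.2 hc
    have h2 : 1 ≤ (tl σ).count c := by
      apply List.count_pos_iff.2
      have hk2 : k ≤ 2 * m + 2 := by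
        rcases cls hc with h | h | ⟨j, hj, h⟩ | ⟨j, hj, h⟩
        · rw [hk] at h; unfold pin at h; omega
        · rw [hk] at h; unfold pin at h; omega
        · rw [hk] at h; unfold pin con at h; omega
        · rw [hk] at h; unfold pin at h; omega
      unfold tl
      rw [List.mem_flatMap]
      exact ⟨k, (hS.me k).2 hk2, by rw [hk]; simp⟩
    omega

end Pool.Agent.MWLQ.H89T
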